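import Pool.Agent.W477.GM.Stms

set_option maxHeartbeats 1000000
set_option linter.all false

/-!
GM-GO: existence of a generic object with a countable set of names.
-/

namespace Pool.Agent.W477.GM.Go563

open Pool.Agent.W477.GM

deriving instance Countable for Fm

/-- hereditarily symmetric names -/
abbrev NN : Type 1 := {x : Nm QQ // HS SQ x}

/-- the assignment of a list -/
def vl (x0 : NN) (l : List NN) (i : ℕ) : Nm QQ := (l.getD i x0).1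

theorem vl_hs (x0 : NN) (l : List NN) (i : ℕ) : HS SQ (vl x0 l i) := (l.getD i x0).2

/-- the list of the first values of an assignment -/
def ls (v : ℕ → NN) (n : ℕ) : List NN := (List.range n).map v

theorem vl_ls (x0 : NN) (v : ℕ → NN) (n i : ℕ) : vl x0 (ls v n) i = if i < n then (v i).1 else x0.1 := by
  unfold vl ls
  by_cases h : i < n
  · rw [if_pos h, List.getD_eq_getElem _ _ (by simpa using h)]
    simp
  · rw [if_neg h, List.getD_eq_default _ _ (by simpa using h)]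

theorem mem_ls (v : ℕ → NN) (n : ℕ) (D : Set NN) (hv : ∀ i, v i ∈ D) :
    ∀ x, x ∈ ls v n → x ∈ D := by
  intro x hx
  unfold ls at hx
  rw [List.mem_map] at hx
  obtain ⟨i, _, rfl⟩ := hx
  exact hv i

/-- the requirements -/
def Req (x0 : NN) : Fm × ℕ × ℕ → List NN → QQ → NN → Prop
  | (φ, _, 0), l, r, _ =>
      Fc (HS SQ) φ (vl x0 l) r ∨ ∀ s, s ≤ r → ¬ Fc (HS SQ) φ (vl x0 l) s
  | (φ, i, 1), l, r, x =>
      Fc (HS SQ) (.all i φ) (vl x0 l) r ∨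
        ∀ s, s ≤ r → ¬ Fc (HS SQ) φ (Function.update (vl x0 l) i x.1) s
  | (φ, _, 2), l, r, _ =>
      Fc VN φ (vl x0 l) r ∨ ∀ s, s ≤ r → ¬ Fc VN φ (vl x0 l) s
  | (φ, i, 3), l, r, x =>
      Fc VN (.all i φ) (vl x0 l) r ∨
        (VN x.1 ∧ ∀ s, s ≤ r → ¬ Fc VN φ (Function.update (vl x0 l) i x.1) s)
  | (_, _, 4), l, r, x =>
      VN (vl x0 l 1) → ((∀ s, s ≤ r → ¬ fmem (vl x0 l 0) (vl x0 l 1) s) ∨
        (VN x.1 ∧ feq (vl x0 l 0) x.1 r))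
  | (_, _, 5), l, _, x =>
      ∃ τ, x.1 = lift τ ∧ HS SP τ ∧ ∀ v, (∀ i, HS SQ (v i)) → v 0 = gN → v 1 = lift τ →
        v 2 = vl x0 l 0 → ∀ p, Fc (HS SQ) valFm v p
  | (φ, _, 6), l, r, x =>
      (∀ i, VN (vl x0 l i)) →
      ((VN x.1 ∧ ∀ s, s ≤ r → ¬ Fc (HS SQ) φ (Function.update (vl x0 l) 0 x.1) s) ∨
       (Fc (HS SQ) φ (Function.update (vl x0 l) 0 x.1) r ∧
        ∀ s, s ≤ r → ∀ y, HS SP y → ¬ feq x.1 (lift y) s))
  | (_, _, 7), _, _, x => x.1 = lift bN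
  | (_, _, 8), _, _, x => x.1 = lift rN
  | (_, _, 9), _, _, x => x.1 = gN
  | (_, _, _), _, _, _ => True

/-- deciding a formula -/
theorem dec_aux (h2 : P_FC) (D : Nm QQ → Prop) (φ : Fm) (v : ℕ → Nm QQ) (q : QQ) :
    ∃ r, r ≤ q ∧ (Fc D φ v r ∨ ∀ s, s ≤ r → ¬ Fc D φ v s) := by
  by_cases H : ∃ r, r ≤ q ∧ Fc D φ v r
  · obtain ⟨r, h1, h3⟩ := H
    exact ⟨r, h1, Or.inl h3⟩
  · push Not at H
    exact ⟨q, le_rfl, Or.inr H⟩

/-- witnesses -/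
theorem wit_aux (h2 : P_FC) (D : Nm QQ → Prop) (φ : Fm) (i : ℕ) (v : ℕ → Nm QQ) (q : QQ) :
    ∃ r, r ≤ q ∧ (Fc D (.all i φ) v r ∨
      ∃ x, D x ∧ ∀ s, s ≤ r → ¬ Fc D φ (Function.update v i x) s) := by
  by_cases H : Fc D (.all i φ) v q
  · exact ⟨q, le_rfl, Or.inl H⟩
  · have H' : ¬ ∀ x, D x → Fc D φ (Function.update v i x) q := H
    push Not at H'
    obtain ⟨x, hx, hx2⟩ := H'
    have H2 : ¬ ∀ q', q' ≤ q → ∃ r, r ≤ q' ∧ Fc D φ (Function.update v i x) r :=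
      fun hh => hx2 ((h2 QQ D).dense _ _ _ hh)
    push Not at H2
    obtain ⟨r, hr, hr2⟩ := H2
    exact ⟨r, hr, Or.inr ⟨x, hx, hr2⟩⟩

/-- GM-GO -/
theorem go_holds (h : P_EQ) (h2 : P_FC) (h3 : P_HS) (hl : P_LIFT) (hlh : P_LIFTHS) (hco : P_COD)
    (he : P_EXT) (hv : P_VG2) (hn : P_ND) (hc : P_CAX) (hk : P_KAP) (hs : P_SYSC) : P_GO := by
  have hSP : SysAx SP := hs hk Unit _ hc.1
  have hSQ : SysAx SQ := hs hk Str slen hc.2
  have hP := h3 PP SP hSP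
  have hQ := h3 QQ SQ hSQ
  set x0 : NN := ⟨lift (chk ∅), hlh.1 _ (hP.chk ∅)⟩ with hx0
  have hx0V : VN x0.1 := ⟨chk ∅, hP.chk ∅, rfl⟩
  have hVH : ∀ x, VN x → HS SQ x := by
    rintro x ⟨y, hy, rfl⟩
    exact hlh.1 y hy
  have hbH : HS SQ (lift bN) := hlh.1 _ (((hco.1 PP).hs SP hSP).1)
  have hrH : HS SQ (lift rN) := hlh.1 _ (((hco.1 PP).hs SP hSP).2)
  have hgH : HS SQ gN := hco.2.1
  have hreq : ∀ k l q, ∃ r, r ≤ q ∧ ∃ x, Req x0 k l r x := by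
    rintro ⟨φ, i, k⟩ l q
    match k with
    | 0 =>
      obtain ⟨r, hr, hh⟩ := dec_aux h2 (HS SQ) φ (vl x0 l) q
      exact ⟨r, hr, x0, hh⟩
    | 1 =>
      obtain ⟨r, hr, hh | ⟨x, hx, hh⟩⟩ := wit_aux h2 (HS SQ) φ i (vl x0 l) q
      · exact ⟨r, hr, x0, Or.inl hh⟩
      · exact ⟨r, hr, ⟨x, hx⟩, Or.inr hh⟩
    | 2 =>
      obtain ⟨r, hr, hh⟩ := dec_aux h2 VN φ (vl x0 l) q
      exact ⟨r, hr, x0, hh⟩
    | 3 =>
      obtain ⟨r, hr, hh | ⟨x, hx, hh⟩⟩ := wit_aux h2 VN φ i (vl x0 l) q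
      · exact ⟨r, hr, x0, Or.inl hh⟩
      · exact ⟨r, hr, ⟨x, hVH x hx⟩, Or.inr ⟨hx, hh⟩⟩
    | 4 =>
      by_cases hV : VN (vl x0 l 1)
      · by_cases H : ∃ s, s ≤ q ∧ fmem (vl x0 l 0) (vl x0 l 1) s
        · obtain ⟨s, hsq, hm⟩ := H
          obtain ⟨y, hy, hye⟩ := id hV
          rw [hye] at hm
          obtain ⟨r, hr, z, hz, hz2⟩ := hl.child _ y s hm hy
          exact ⟨r, hr.trans hsq, ⟨lift z, hlh.1 z hz⟩, fun _ => Or.inr ⟨⟨z, hz, rfl⟩, hz2⟩⟩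
        · push Not at H
          exact ⟨q, le_rfl, x0, fun _ => Or.inl H⟩
      · exact ⟨q, le_rfl, x0, fun hh => absurd hh hV⟩
    | 5 =>
      obtain ⟨τ, hτ, hh⟩ := hv (vl x0 l 0) (vl_hs x0 l 0)
      exact ⟨q, le_rfl, ⟨lift τ, hlh.1 τ hτ⟩, τ, rfl, hτ, hh⟩
    | 6 =>
      by_cases hV : ∀ i, VN (vl x0 l i)
      · choose w hw1 hw2 using hV
        obtain ⟨r, hr, x, hx, hh⟩ := hn φ w hw1 q
        have e : (fun i => lift (w i)) = vl x0 l := by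
          funext i
          exact (hw2 i).symm
        rw [e] at hh
        exact ⟨r, hr, ⟨x, hx⟩, fun _ => hh⟩
      · exact ⟨q, le_rfl, x0, fun hh => absurd hh hV⟩
    | 7 => exact ⟨q, le_rfl, ⟨lift bN, hbH⟩, rfl⟩
    | 8 => exact ⟨q, le_rfl, ⟨lift rN, hrH⟩, rfl⟩
    | 9 => exact ⟨q, le_rfl, ⟨gN, hgH⟩, rfl⟩
    | (n + 10) => exact ⟨q, le_rfl, x0, trivial⟩
  obtain ⟨G, D, hG, hx0D, hD⟩ := he QQ NN (Fm × ℕ × ℕ) (Req x0) x0 hreq
  set D0 : Nm QQ → Prop := fun x => ∃ hx : HS SQ x, (⟨x, hx⟩ : NN) ∈ D with hD0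
  have hD0m : ∀ x : NN, x ∈ D → D0 x.1 := fun x hx => ⟨x.2, hx⟩
  -- the assignment given by a list
  have hasg : ∀ v : ℕ → Nm QQ, (∀ i, D0 (v i)) → ∀ n : ℕ, ∃ l : List NN, (∀ x, x ∈ l → x ∈ D) ∧
      ∀ i, vl x0 l i = if i < n then v i else x0.1 := by
    intro v hv n
    refine ⟨ls (fun i => ⟨v i, (hv i).1⟩) n, mem_ls _ n D (fun i => (hv i).2), fun i => ?_⟩
    rw [vl_ls]
  refine ⟨G, D0, ?_⟩
  refine
    { fil := hG
      hs := fun x hx => hx.1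
      gen := ⟨fun x hx => hx.1, ?_, ?_⟩
      genV := ⟨fun x hx => hx.2, ?_, ?_⟩
      b := ?_
      r := ?_
      g := ?_
      tra := ?_
      val := ?_
      nd := ?_ }
  · intro φ v hv
    obtain ⟨l, hl1, hl2⟩ := hasg v hv φ.bd
    obtain ⟨r, hr, x, -, hh⟩ := hD (φ, 0, 0) l hl1
    have e : ∀ p, Fc (HS SQ) φ (vl x0 l) p ↔ Fc (HS SQ) φ v p := fun p =>
      (h2 QQ (HS SQ)).bd φ _ _ p (fun i hi => by rw [hl2, if_pos hi])
    have hh' : Fc (HS SQ) φ (vl x0 l) r ∨ ∀ s, s ≤ r → ¬ Fc (HS SQ) φ (vl x0 l) s := hh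
    simp only [e] at hh'
    exact ⟨r, hr, hh'⟩
  · intro φ i v hv
    obtain ⟨l, hl1, hl2⟩ := hasg v hv (Fm.all i φ).bd
    obtain ⟨r, hr, x, hxD, hh⟩ := hD (φ, i, 1) l hl1
    have e : ∀ p, Fc (HS SQ) (.all i φ) (vl x0 l) p ↔ Fc (HS SQ) (.all i φ) v p := fun p =>
      (h2 QQ (HS SQ)).bd _ _ _ p (fun j hj => by rw [hl2, if_pos hj])
    have e' : ∀ p, Fc (HS SQ) φ (Function.update (vl x0 l) i x.1) p ↔
        Fc (HS SQ) φ (Function.update v i x.1) p := fun p =>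
      (h2 QQ (HS SQ)).bd _ _ _ p (fun j hj => by
        by_cases hji : j = i
        · subst hji
          rw [Function.update_self, Function.update_self]
        · rw [Function.update_of_ne hji, Function.update_of_ne hji, hl2, if_pos]
          exact lt_of_lt_of_le hj (le_max_right _ _))
    have hh' : Fc (HS SQ) (.all i φ) (vl x0 l) r ∨
        ∀ s, s ≤ r → ¬ Fc (HS SQ) φ (Function.update (vl x0 l) i x.1) s := hh
    rw [e] at hh'
    simp only [e'] at hh'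
    rcases hh' with hh' | hh'
    · exact Or.inl ⟨r, hr, hh'⟩
    · exact Or.inr ⟨x.1, hD0m x hxD, r, hr, hh'⟩
  · intro φ v hv
    obtain ⟨l, hl1, hl2⟩ := hasg v (fun i => (hv i).1) φ.bd
    obtain ⟨r, hr, x, -, hh⟩ := hD (φ, 0, 2) l hl1
    have e : ∀ p, Fc VN φ (vl x0 l) p ↔ Fc VN φ v p := fun p =>
      (h2 QQ VN).bd φ _ _ p (fun i hi => by rw [hl2, if_pos hi])
    have hh' : Fc VN φ (vl x0 l) r ∨ ∀ s, s ≤ r → ¬ Fc VN φ (vl x0 l) s := hh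
    simp only [e] at hh'
    exact ⟨r, hr, hh'⟩
  · intro φ i v hv
    obtain ⟨l, hl1, hl2⟩ := hasg v (fun i => (hv i).1) (Fm.all i φ).bd
    obtain ⟨r, hr, x, hxD, hh⟩ := hD (φ, i, 3) l hl1
    have e : ∀ p, Fc VN (.all i φ) (vl x0 l) p ↔ Fc VN (.all i φ) v p := fun p =>
      (h2 QQ VN).bd _ _ _ p (fun j hj => by rw [hl2, if_pos hj])
    have e' : ∀ p, Fc VN φ (Function.update (vl x0 l) i x.1) p ↔
        Fc VN φ (Function.update v i x.1) p := fun p =>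
      (h2 QQ VN).bd _ _ _ p (fun j hj => by
        by_cases hji : j = i
        · subst hji
          rw [Function.update_self, Function.update_self]
        · rw [Function.update_of_ne hji, Function.update_of_ne hji, hl2, if_pos]
          exact lt_of_lt_of_le hj (le_max_right _ _))
    have hh' : Fc VN (.all i φ) (vl x0 l) r ∨
        (VN x.1 ∧ ∀ s, s ≤ r → ¬ Fc VN φ (Function.update (vl x0 l) i x.1) s) := hh
    rw [e] at hh'
    simp only [e'] at hh'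
    rcases hh' with hh' | hh'
    · exact Or.inl ⟨r, hr, hh'⟩
    · exact Or.inr ⟨x.1, ⟨hD0m x hxD, hh'.1⟩, r, hr, hh'.2⟩
  · obtain ⟨r, hr, x, hxD, hh⟩ := hD (.fls, 0, 7) [] (by simp)
    have hh' : x.1 = lift bN := hh
    rw [← hh']
    exact hD0m x hxD
  · obtain ⟨r, hr, x, hxD, hh⟩ := hD (.fls, 0, 8) [] (by simp)
    have hh' : x.1 = lift rN := hh
    rw [← hh']
    exact hD0m x hxD
  · obtain ⟨r, hr, x, hxD, hh⟩ := hD (.fls, 0, 9) [] (by simp)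
    have hh' : x.1 = gN := hh
    rw [← hh']
    exact hD0m x hxD
  · intro x y hx hy hyV ⟨p, hp, hm⟩
    obtain ⟨r, hr, z, hzD, hh⟩ := hD (.fls, 0, 4) [⟨x, hx.1⟩, ⟨y, hy.1⟩] (by
      intro a ha
      simp only [List.mem_cons, List.not_mem_nil, or_false] at ha
      rcases ha with rfl | rfl
      · exact hx.2
      · exact hy.2)
    have hh' : VN y → ((∀ s, s ≤ r → ¬ fmem x y s) ∨ (VN z.1 ∧ feq x z.1 r)) := hh
    rcases hh' hyV with hh' | hh'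
    · obtain ⟨s, _, hs1, hs2⟩ := hG.dir p r hp hr
      exact absurd ((h QQ).mmono _ _ _ _ hs1 hm) (hh' s hs2)
    · exact ⟨z.1, hD0m z hzD, hh'.1, r, hr, hh'.2⟩
  · intro x hx
    obtain ⟨r, hr, z, hzD, hh⟩ := hD (.fls, 0, 5) [⟨x, hx.1⟩] (by
      intro a ha
      simp only [List.mem_cons, List.not_mem_nil, or_false] at ha
      rcases ha with rfl
      exact hx.2)
    obtain ⟨τ, e, hτ, hh'⟩ := hh
    refine ⟨τ, hτ, ?_, hh'⟩
    rw [← e]
    exact hD0m z hzD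
  · intro φ v hv
    obtain ⟨l, hl1, hl2⟩ := hasg v (fun i => (hv i).1) φ.bd
    obtain ⟨r, hr, x, hxD, hh⟩ := hD (φ, 0, 6) l hl1
    have hV : ∀ i, VN (vl x0 l i) := by
      intro i
      rw [hl2]
      by_cases hi : i < φ.bd
      · rw [if_pos hi]
        exact (hv i).2
      · rw [if_neg hi]
        exact hx0V
    have e' : ∀ p, Fc (HS SQ) φ (Function.update (vl x0 l) 0 x.1) p ↔
        Fc (HS SQ) φ (Function.update v 0 x.1) p := fun p =>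
      (h2 QQ (HS SQ)).bd _ _ _ p (fun j hj => by
        by_cases hji : j = 0
        · subst hji
          rw [Function.update_self, Function.update_self]
        · rw [Function.update_of_ne hji, Function.update_of_ne hji, hl2, if_pos hj])
    have hh' : (VN x.1 ∧ ∀ s, s ≤ r → ¬ Fc (HS SQ) φ (Function.update (vl x0 l) 0 x.1) s) ∨
       (Fc (HS SQ) φ (Function.update (vl x0 l) 0 x.1) r ∧
        ∀ s, s ≤ r → ∀ y, HS SP y → ¬ feq x.1 (lift y) s) := hh hV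
    simp only [e'] at hh'
    exact ⟨x.1, hD0m x hxD, r, hr, hh'⟩

end Pool.Agent.W477.GM.Go563
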